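import Mathlib

set_option autoImplicit false

open MeasureTheory Set Filter Topology

namespace Q260.RL

/-- harmonic sum over the integers `n` with `n a < x ≤ n a (1 + δ)` -/
theorem sum_ge (δ η a x : ℝ) (hδ : 0 < δ) (ha : 0 < a) (hη : 0 < η) (hx : a / η ≤ x) (B : ℕ)
    (hB : x / a ≤ B) :
    (δ / (1 + δ) - η) / a ≤ ∑ n ∈ Finset.Icc 1 B,
      (1 / ((n : ℝ) * a)) * (Ioc ((n : ℝ) * a) ((n : ℝ) * a * (1 + δ))).indicator (fun _ => (1 : ℝ)) x := by
  have hx0 : 0 < x := lt_of_lt_of_le (by positivity) hx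
  obtain ⟨y, hy⟩ : ∃ y, y = x / a := ⟨_, rfl⟩
  have hy0 : 0 < y := by rw [hy]; positivity
  have hxy : x = y * a := by rw [hy]; field_simp
  have h1δ : 0 < 1 + δ := by linarith
  have hsub : Finset.Ico ⌈y / (1 + δ)⌉₊ ⌈y⌉₊ ⊆ Finset.Icc 1 B := by
    intro n hn
    rw [Finset.mem_Ico] at hn
    rw [Finset.mem_Icc]
    constructor
    · have : 0 < ⌈y / (1 + δ)⌉₊ := Nat.ceil_pos.2 (by positivity)
      omega
    · have h1 : (n : ℝ) < y := Nat.lt_ceil.1 hn.2
      have h2 : (n : ℝ) < B := by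
        rw [← hy] at hB
        linarith
      exact_mod_cast h2.le
  have hnn : ∀ n ∈ Finset.Icc 1 B, n ∉ Finset.Ico ⌈y / (1 + δ)⌉₊ ⌈y⌉₊ →
      0 ≤ (1 / ((n : ℝ) * a)) * (Ioc ((n : ℝ) * a) ((n : ℝ) * a * (1 + δ))).indicator (fun _ => (1 : ℝ)) x := by
    intro n _ _
    refine mul_nonneg (by positivity) (indicator_nonneg (fun _ _ => zero_le_one) _)
  refine le_trans ?_ (Finset.sum_le_sum_of_subset_of_nonneg hsub hnn)
  have hterm : ∀ n ∈ Finset.Ico ⌈y / (1 + δ)⌉₊ ⌈y⌉₊, 1 / (y * a) ≤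
      (1 / ((n : ℝ) * a)) * (Ioc ((n : ℝ) * a) ((n : ℝ) * a * (1 + δ))).indicator (fun _ => (1 : ℝ)) x := by
    intro n hn
    rw [Finset.mem_Ico] at hn
    have h1 : (n : ℝ) < y := Nat.lt_ceil.1 hn.2
    have h2 : y / (1 + δ) ≤ n := Nat.ceil_le.1 hn.1
    have h0 : (0 : ℝ) < n := lt_of_lt_of_le (by positivity) h2
    have hmem : x ∈ Ioc ((n : ℝ) * a) ((n : ℝ) * a * (1 + δ)) := by
      rw [hxy]
      constructor
      · exact mul_lt_mul_of_pos_right h1 ha
      · rw [div_le_iff₀ h1δ] at h2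
        nlinarith
    rw [indicator_of_mem hmem, mul_one]
    apply one_div_le_one_div_of_le (by positivity)
    exact mul_le_mul_of_nonneg_right h1.le ha.le
  refine le_trans ?_ (Finset.card_nsmul_le_sum _ _ _ hterm)
  rw [Nat.card_Ico, nsmul_eq_mul]
  have hcard : y * (δ / (1 + δ)) - 1 ≤ ((⌈y⌉₊ - ⌈y / (1 + δ)⌉₊ : ℕ) : ℝ) := by
    have h1 : (⌈y⌉₊ : ℝ) - ⌈y / (1 + δ)⌉₊ ≤ ((⌈y⌉₊ - ⌈y / (1 + δ)⌉₊ : ℕ) : ℝ) := by
      rw [sub_le_iff_le_add]
      exact_mod_cast (by omega : ⌈y⌉₊ ≤ (⌈y⌉₊ - ⌈y / (1 + δ)⌉₊) + ⌈y / (1 + δ)⌉₊)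
    have h2 : y ≤ ⌈y⌉₊ := Nat.le_ceil y
    have h3 : (⌈y / (1 + δ)⌉₊ : ℝ) < y / (1 + δ) + 1 := Nat.ceil_lt_add_one (by positivity)
    have h4 : y * (δ / (1 + δ)) = y - y / (1 + δ) := by field_simp; ring
    linarith
  have h5 : (y * (δ / (1 + δ)) - 1) * (1 / (y * a)) ≤
      ((⌈y⌉₊ - ⌈y / (1 + δ)⌉₊ : ℕ) : ℝ) * (1 / (y * a)) :=
    mul_le_mul_of_nonneg_right hcard (by positivity)
  refine le_trans ?_ h5
  have h6 : 1 / y ≤ η := by
    rw [div_le_iff₀ hy0]
    rw [div_le_iff₀ hη] at hx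
    have : a ≤ (y * a) * η := by rw [← hxy]; exact hx
    have h7 : a * 1 ≤ a * (η * y) := by linarith
    exact le_of_mul_le_mul_left h7 ha
  have h7 : (y * (δ / (1 + δ)) - 1) * (1 / (y * a)) = (δ / (1 + δ) - 1 / y) / a := by
    field_simp
  rw [h7]
  apply div_le_div_of_nonneg_right _ ha.le
  linarith

/-- the number of the multiples of `a t` in `A`, as a function of `t` -/
noncomputable def Nf (A : Set ℝ) (a : ℝ) (B : ℕ) (t : ℝ) : ℝ :=
  ∑ n ∈ Finset.Icc 1 B, A.indicator (fun _ => (1 : ℝ)) ((n : ℝ) * a * t)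

theorem Nf_meas {A : Set ℝ} (hA : MeasurableSet A) (a : ℝ) (B : ℕ) : Measurable (Nf A a B) := by
  unfold Nf
  refine Finset.measurable_sum _ fun n _ => ?_
  exact (measurable_const.indicator hA).comp (measurable_const_mul _)

theorem Nf_nonneg (A : Set ℝ) (a : ℝ) (B : ℕ) (t : ℝ) : 0 ≤ Nf A a B t :=
  Finset.sum_nonneg fun _ _ => indicator_nonneg (fun _ _ => zero_le_one) _

theorem Nf_le_B (A : Set ℝ) (a : ℝ) (B : ℕ) (t : ℝ) : Nf A a B t ≤ B := by
  unfold Nf
  calc _ ≤ ∑ n ∈ Finset.Icc 1 B, (1 : ℝ) := Finset.sum_le_sum fun n _ => by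
        by_cases h : (n : ℝ) * a * t ∈ A
        · rw [indicator_of_mem h]
        · rw [indicator_of_notMem h]; exact zero_le_one
    _ = B := by simp

theorem int_Nf {A : Set ℝ} (hA : MeasurableSet A) (u T δ η a : ℝ) (hAI : A ⊆ Ioc u (u + T)) (hu : 0 ≤ u)
    (hδ : 0 < δ) (hη : 0 < η) (ha : 0 < a) (hη1 : η ≤ δ / (1 + δ)) (B : ℕ) (hB : (u + T) / a ≤ B) :
    (δ / (1 + δ) - η) / a * (volume.real A - a / η) ≤ ∫ t in (1 : ℝ)..(1 + δ), Nf A a B t := by
  have hvA : volume A ≠ ⊤ := by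
    refine ne_top_of_le_ne_top ?_ (measure_mono hAI)
    rw [Real.volume_Ioc]
    exact ENNReal.ofReal_ne_top
  have hint : ∀ n ∈ Finset.Icc 1 B, IntervalIntegrable
      (fun t => A.indicator (fun _ => (1 : ℝ)) ((n : ℝ) * a * t)) volume 1 (1 + δ) := by
    intro n _
    refine IntervalIntegrable.mono_fun (g := fun t => A.indicator (fun _ => (1 : ℝ)) ((n : ℝ) * a * t))
      (f := fun _ => (1 : ℝ)) intervalIntegrable_const ?_ ?_
    · exact ((measurable_const.indicator hA).comp (measurable_const_mul _)).aestronglyMeasurable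
    · refine Eventually.of_forall fun t => ?_
      simp only [norm_one]
      by_cases h : (n : ℝ) * a * t ∈ A
      · simp only [indicator_of_mem h, norm_one]; exact le_rfl
      · simp only [indicator_of_notMem h, norm_zero]; exact zero_le_one
  have h1 : ∫ t in (1 : ℝ)..(1 + δ), Nf A a B t =
      ∑ n ∈ Finset.Icc 1 B, ∫ t in (1 : ℝ)..(1 + δ), A.indicator (fun _ => (1 : ℝ)) ((n : ℝ) * a * t) := by
    unfold Nf
    exact intervalIntegral.integral_finsetSum hint
  have h2 : ∀ n ∈ Finset.Icc 1 B, ∫ t in (1 : ℝ)..(1 + δ), A.indicator (fun _ => (1 : ℝ)) ((n : ℝ) * a * t) =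
      ∫ x in A, (1 / ((n : ℝ) * a)) *
        (Ioc ((n : ℝ) * a) ((n : ℝ) * a * (1 + δ))).indicator (fun _ => (1 : ℝ)) x := by
    intro n hn
    have hn1 : (1 : ℝ) ≤ n := by exact_mod_cast (Finset.mem_Icc.1 hn).1
    have hna : 0 < (n : ℝ) * a := by positivity
    rw [intervalIntegral.integral_comp_mul_left (f := A.indicator (fun _ => (1 : ℝ))) hna.ne', mul_one,
      smul_eq_mul, integral_const_mul, one_div]
    congr 1
    rw [intervalIntegral.integral_of_le (by nlinarith)]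
    rw [← integral_indicator measurableSet_Ioc, ← integral_indicator hA]
    refine integral_congr_ae (Eventually.of_forall fun x => ?_)
    simp only [indicator, mem_Ioc]
    by_cases hx1 : x ∈ A <;> by_cases hx2 : (n : ℝ) * a < x ∧ x ≤ (n : ℝ) * a * (1 + δ) <;> simp [hx1, hx2]
  rw [h1, Finset.sum_congr rfl h2, ← integral_finsetSum]
  swap
  · intro n _
    refine Integrable.const_mul ?_ _
    refine Integrable.indicator ?_ measurableSet_Ioc
    exact integrableOn_const hvA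
  have hsplit : volume.real (A ∩ Ici (a / η)) ≥ volume.real A - a / η := by
    have e1 : A ⊆ (A ∩ Ici (a / η)) ∪ Ioo 0 (a / η) := by
      intro x hx
      by_cases h : a / η ≤ x
      · exact Or.inl ⟨hx, h⟩
      · exact Or.inr ⟨lt_of_le_of_lt hu (hAI hx).1, not_le.1 h⟩
    have e2 : volume (Ioo (0 : ℝ) (a / η)) ≠ ⊤ := by
      rw [Real.volume_Ioo]; exact ENNReal.ofReal_ne_top
    have e3 : volume (A ∩ Ici (a / η)) ≠ ⊤ := ne_top_of_le_ne_top hvA (measure_mono inter_subset_left)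
    have e4 : volume.real A ≤ volume.real (A ∩ Ici (a / η)) + volume.real (Ioo (0 : ℝ) (a / η)) := by
      refine le_trans (measureReal_mono e1 ?_) (measureReal_union_le _ _)
      exact (measure_union_lt_top (lt_top_iff_ne_top.2 e3) (lt_top_iff_ne_top.2 e2)).ne
    have e5 : volume.real (Ioo (0 : ℝ) (a / η)) = a / η := by
      rw [Real.volume_real_Ioo, sub_zero]
      exact max_eq_left (by positivity)
    rw [e5] at e4
    linarith
  have hκ : 0 ≤ (δ / (1 + δ) - η) / a := div_nonneg (by linarith) ha.le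
  calc (δ / (1 + δ) - η) / a * (volume.real A - a / η) ≤
        (δ / (1 + δ) - η) / a * volume.real (A ∩ Ici (a / η)) := mul_le_mul_of_nonneg_left hsplit hκ
    _ = ∫ x in A, (Ici (a / η)).indicator (fun _ => (δ / (1 + δ) - η) / a) x := by
        rw [integral_indicator measurableSet_Ici, integral_const, smul_eq_mul, mul_comm]
        congr 1
        rw [measureReal_restrict_apply MeasurableSet.univ, univ_inter]
        rw [measureReal_def, measureReal_def, Measure.restrict_apply measurableSet_Ici, inter_comm]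
    _ ≤ _ := by
        refine setIntegral_mono_on ?_ ?_ hA fun x hx => ?_
        · refine Integrable.indicator ?_ measurableSet_Ici
          exact integrableOn_const hvA
        · refine integrable_finsetSum _ fun n _ => Integrable.const_mul ?_ _
          refine Integrable.indicator ?_ measurableSet_Ioc
          exact integrableOn_const hvA
        · by_cases hx1 : a / η ≤ x
          · rw [indicator_of_mem (by exact hx1)]
            refine sum_ge δ η a x hδ ha hη hx1 B ?_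
            refine le_trans ?_ hB
            exact div_le_div_of_nonneg_right (hAI hx).2 ha.le
          · rw [indicator_of_notMem (by exact hx1)]
            exact Finset.sum_nonneg fun n _ => mul_nonneg (by positivity)
              (indicator_nonneg (fun _ _ => zero_le_one) _)

end Q260.RL
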