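import Pool.Agent.Q260.RL.Count

set_option autoImplicit false

open MeasureTheory Set Filter Topology

namespace Q260.RL

/-- the integer window of the multiples of `a t` -/
theorem window {A : Set ℝ} (u T a t : ℝ) (hAI : A ⊆ Ioc u (u + T)) (hu : 0 ≤ u) (hT : 0 ≤ T)
    (ha : 0 < a) (ht : 1 ≤ t) (B : ℕ) :
    ∃ L v : ℕ, (L : ℝ) ≤ T / a + 1 ∧
      Nf A a B t ≤ ({m : ℕ | m < L ∧ ((v + m : ℕ) : ℝ) * a * t ∈ A}.ncard : ℝ) := by
  classical
  have ht0 : 0 < t := by linarith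
  have hat : 0 < a * t := by positivity
  obtain ⟨p, hp⟩ : ∃ p, p = u / (a * t) := ⟨_, rfl⟩
  obtain ⟨q, hq⟩ : ∃ q, q = (u + T) / (a * t) := ⟨_, rfl⟩
  have hp0 : 0 ≤ p := by rw [hp]; positivity
  have hpq : p ≤ q := by rw [hp, hq]; exact div_le_div_of_nonneg_right (by linarith) hat.le
  have hqp : q - p ≤ T / a := by
    rw [hp, hq, ← sub_div, add_sub_cancel_left]
    apply div_le_div_of_nonneg_left hT ha
    nlinarith
  refine ⟨⌊q⌋₊ - ⌊p⌋₊, ⌊p⌋₊ + 1, ?_, ?_⟩
  · have h1 : ⌊p⌋₊ ≤ ⌊q⌋₊ := Nat.floor_mono hpq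
    rw [Nat.cast_sub h1]
    have h2 : (⌊q⌋₊ : ℝ) ≤ q := Nat.floor_le (hp0.trans hpq)
    have h3 : p < ⌊p⌋₊ + 1 := Nat.lt_floor_add_one p
    linarith
  · have h1 : Nf A a B t = (((Finset.Icc 1 B).filter (fun n : ℕ => (n : ℝ) * a * t ∈ A)).card : ℝ) := by
      unfold Nf
      rw [Finset.card_filter]
      push_cast
      refine Finset.sum_congr rfl fun n _ => ?_
      by_cases h : (n : ℝ) * a * t ∈ A
      · rw [indicator_of_mem h, if_pos h]
      · rw [indicator_of_notMem h, if_neg h]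
    rw [h1, Nat.cast_le, ← Set.ncard_coe_finset]
    have hfin : {m : ℕ | m < ⌊q⌋₊ - ⌊p⌋₊ ∧ ((⌊p⌋₊ + 1 + m : ℕ) : ℝ) * a * t ∈ A}.Finite :=
      (Set.finite_lt_nat (⌊q⌋₊ - ⌊p⌋₊)).subset fun m hm => hm.1
    refine Set.ncard_le_ncard_of_injOn (fun n => n - (⌊p⌋₊ + 1)) ?_ ?_ hfin
    · intro n hn
      rw [Finset.mem_coe, Finset.mem_filter] at hn
      obtain ⟨_, hn⟩ := hn
      have h2 := hAI hn
      have h3 : p < n := by
        rw [hp, div_lt_iff₀ hat]
        have := h2.1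
        nlinarith
      have h4 : (n : ℝ) ≤ q := by
        rw [hq, le_div_iff₀ hat]
        have := h2.2
        nlinarith
      have h5 : ⌊p⌋₊ < n := by
        rw [Nat.floor_lt hp0]; exact h3
      have h6 : n ≤ ⌊q⌋₊ := Nat.le_floor h4
      have e : ⌊p⌋₊ + 1 + (n - (⌊p⌋₊ + 1)) = n := by omega
      have e0 : n - (⌊p⌋₊ + 1) < ⌊q⌋₊ - ⌊p⌋₊ := by omega
      refine ⟨e0, ?_⟩
      show ((⌊p⌋₊ + 1 + (n - (⌊p⌋₊ + 1)) : ℕ) : ℝ) * a * t ∈ A
      rw [e]
      exact hn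
    · intro n hn m hm hnm
      rw [Finset.mem_coe, Finset.mem_filter] at hn hm
      have h2 := hAI hn.2
      have h2' := hAI hm.2
      have h3 : p < n := by
        rw [hp, div_lt_iff₀ hat]
        have := h2.1
        nlinarith
      have h3' : p < m := by
        rw [hp, div_lt_iff₀ hat]
        have := h2'.1
        nlinarith
      have h5 : ⌊p⌋₊ < n := by rw [Nat.floor_lt hp0]; exact h3
      have h5' : ⌊p⌋₊ < m := by rw [Nat.floor_lt hp0]; exact h3'
      have hnm' : n - (⌊p⌋₊ + 1) = m - (⌊p⌋₊ + 1) := hnm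
      omega

theorem Nf_le {A : Set ℝ} (u T a t : ℝ) (hAI : A ⊆ Ioc u (u + T)) (hu : 0 ≤ u) (hT : 0 ≤ T)
    (ha : 0 < a) (ht : 1 ≤ t) (B : ℕ) : Nf A a B t ≤ T / a + 1 := by
  obtain ⟨L, v, hL, h⟩ := window u T a t hAI hu hT ha ht B
  refine h.trans (le_trans ?_ hL)
  rw [Nat.cast_le]
  have h1 : {m : ℕ | m < L ∧ ((v + m : ℕ) : ℝ) * a * t ∈ A} ⊆ (Finset.range L : Set ℕ) := fun m hm => by
    rw [Finset.coe_range]; exact hm.1
  have h2 := Set.ncard_le_ncard h1 (Finset.finite_toSet _)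
  rwa [Set.ncard_coe_finset, Finset.card_range] at h2

/-- the dilates for which the density is large -/
def Gd (A : Set ℝ) (a : ℝ) (B : ℕ) (δ w : ℝ) : Set ℝ := {t | t ∈ Icc 1 (1 + δ) ∧ w ≤ Nf A a B t}

theorem Gd_meas {A : Set ℝ} (hA : MeasurableSet A) (a : ℝ) (B : ℕ) (δ w : ℝ) : MeasurableSet (Gd A a B δ w) :=
  measurableSet_Icc.inter (measurableSet_le measurable_const (Nf_meas hA a B))

theorem Gd_ge {A : Set ℝ} (hA : MeasurableSet A) (u T a ρ ε δ : ℝ) (hAI : A ⊆ Ioc u (u + T)) (hu : 0 ≤ u)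
    (hT : 0 < T) (ha : 0 < a) (hρ : 0 ≤ ρ) (hε : 0 < ε) (hρε : ρ + ε ≤ 1) (hδ : δ = ε / 8)
    (hvA : (ρ + ε) * T ≤ volume.real A) (B : ℕ) (hB : (u + T) / a ≤ B)
    (hr : 8 / (δ ^ 2 * ε) + 1 ≤ T / a) :
    δ * ε / 8 ≤ volume.real (Gd A a B δ ((ρ + ε / 2) * (T / a))) := by
  have hδ0 : 0 < δ := by rw [hδ]; positivity
  have hε1 : ε ≤ 1 := by linarith
  have hδ1 : δ ≤ 1 / 8 := by rw [hδ]; linarith
  obtain ⟨r, hrdef⟩ : ∃ r, r = T / a := ⟨_, rfl⟩
  have hr0 : 0 < r := by rw [hrdef]; positivity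
  have hη : 0 < δ ^ 2 := by positivity
  have h1δ : 0 < 1 + δ := by linarith
  have hdd : δ - δ ^ 2 ≤ δ / (1 + δ) := by
    rw [le_div_iff₀ h1δ]
    have : 0 < δ ^ 3 := by positivity
    nlinarith
  have hη1 : δ ^ 2 ≤ δ / (1 + δ) := by
    refine le_trans ?_ hdd
    nlinarith
  have h1 := int_Nf hA u T δ (δ ^ 2) a hAI hu hδ0 hη ha hη1 B hB
  rw [← hrdef] at hr ⊢
  set G := Gd A a B δ ((ρ + ε / 2) * r) with hG
  have hGm : MeasurableSet G := Gd_meas hA a B δ _
  have hGsub : G ⊆ Icc 1 (1 + δ) := fun t ht => ht.1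
  have hGfin : volume G ≠ ⊤ := by
    refine ne_top_of_le_ne_top ?_ (measure_mono hGsub)
    rw [Real.volume_Icc]; exact ENNReal.ofReal_ne_top
  -- upper bound of the integral
  have h2 : ∫ t in (1 : ℝ)..(1 + δ), Nf A a B t ≤ volume.real G * (r + 1) + δ * ((ρ + ε / 2) * r) := by
    rw [intervalIntegral.integral_of_le (by linarith)]
    have hb : ∀ t ∈ Ioc (1 : ℝ) (1 + δ), Nf A a B t ≤
        G.indicator (fun _ => r + 1) t + (ρ + ε / 2) * r := by
      intro t ht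
      by_cases hG' : t ∈ G
      · rw [indicator_of_mem hG']
        have := Nf_le u T a t hAI hu hT.le ha ht.1.le B
        rw [← hrdef] at this
        have h3 : 0 ≤ (ρ + ε / 2) * r := by positivity
        linarith
      · rw [indicator_of_notMem hG', zero_add]
        by_contra hlt
        push Not at hlt
        exact hG' ⟨⟨ht.1.le, ht.2⟩, hlt.le⟩
    have hfin : IsFiniteMeasure (volume.restrict (Ioc (1 : ℝ) (1 + δ))) := by
      constructor
      rw [Measure.restrict_apply_univ, Real.volume_Ioc]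
      exact ENNReal.ofReal_lt_top
    have hi1 : Integrable (fun t => G.indicator (fun _ => r + 1) t) (volume.restrict (Ioc (1 : ℝ) (1 + δ))) :=
      (integrable_const _).indicator hGm
    have hi2 : Integrable (Nf A a B) (volume.restrict (Ioc (1 : ℝ) (1 + δ))) := by
      refine Integrable.mono' (integrable_const (B : ℝ)) (Nf_meas hA a B).aestronglyMeasurable ?_
      refine Eventually.of_forall fun t => ?_
      rw [Real.norm_of_nonneg (Nf_nonneg A a B t)]
      exact Nf_le_B A a B t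
    refine le_trans (setIntegral_mono_on hi2 (hi1.add (integrable_const _)) measurableSet_Ioc hb) ?_
    rw [integral_add' hi1 (integrable_const _), integral_indicator hGm, integral_const, integral_const,
      smul_eq_mul, smul_eq_mul]
    have e1 : (volume.restrict (Ioc (1 : ℝ) (1 + δ))).real univ = δ := by
      rw [measureReal_restrict_apply MeasurableSet.univ, univ_inter, Real.volume_real_Ioc,
        max_eq_left (by linarith)]
      ring
    have e2 : ((volume.restrict (Ioc (1 : ℝ) (1 + δ))).restrict G).real univ ≤ volume.real G := by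
      rw [measureReal_restrict_apply MeasurableSet.univ, univ_inter, measureReal_restrict_apply hGm]
      exact measureReal_mono inter_subset_left hGfin
    rw [e1]
    have h3 : ((volume.restrict (Ioc (1 : ℝ) (1 + δ))).restrict G).real univ * (r + 1) ≤
        volume.real G * (r + 1) := mul_le_mul_of_nonneg_right e2 (by linarith)
    linarith
  -- lower bound of the integral
  have h3 : (δ - 2 * δ ^ 2) * (ρ + ε) * r - 1 / δ ≤
      (δ / (1 + δ) - δ ^ 2) / a * (volume.real A - a / δ ^ 2) := by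
    have e1 : (δ / (1 + δ) - δ ^ 2) / a * (volume.real A - a / δ ^ 2) =
        (δ / (1 + δ) - δ ^ 2) * (volume.real A / a) - (δ / (1 + δ) - δ ^ 2) / δ ^ 2 := by
      field_simp
    rw [e1]
    have e2 : (ρ + ε) * r ≤ volume.real A / a := by
      rw [hrdef, le_div_iff₀ ha]
      have : (ρ + ε) * (T / a) * a = (ρ + ε) * T := by field_simp
      linarith
    have e3 : (δ / (1 + δ) - δ ^ 2) / δ ^ 2 ≤ 1 / δ := by
      rw [div_le_div_iff₀ hη hδ0]
      have h4 : δ / (1 + δ) ≤ δ := by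
        rw [div_le_iff₀ h1δ]
        nlinarith
      nlinarith
    have e4 : (δ - 2 * δ ^ 2) * ((ρ + ε) * r) ≤ (δ / (1 + δ) - δ ^ 2) * (volume.real A / a) := by
      have h5 : δ - 2 * δ ^ 2 ≤ δ / (1 + δ) - δ ^ 2 := by linarith
      have h6 : 0 ≤ δ - 2 * δ ^ 2 := by nlinarith
      exact mul_le_mul h5 e2 (by positivity) (by linarith)
    linarith
  have h4 : (δ - 2 * δ ^ 2) * (ρ + ε) * r - 1 / δ ≤ volume.real G * (r + 1) + δ * ((ρ + ε / 2) * r) :=
    (h3.trans h1).trans h2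
  -- conclusion
  have h5 : r * (δ * ε / 4) - 1 / δ ≤ volume.real G * (r + 1) := by
    have e1 : (δ - 2 * δ ^ 2) * (ρ + ε) * r - δ * ((ρ + ε / 2) * r) =
        r * (δ * ε / 2 - 2 * δ ^ 2 * (ρ + ε)) := by ring
    have e2 : 2 * δ ^ 2 * (ρ + ε) ≤ 2 * δ ^ 2 * 1 := mul_le_mul_of_nonneg_left hρε (by positivity)
    have e3 : 2 * δ ^ 2 * 1 = δ * ε / 4 := by rw [hδ]; ring
    have e4 : r * (δ * ε / 4) ≤ r * (δ * ε / 2 - 2 * δ ^ 2 * (ρ + ε)) := by
      apply mul_le_mul_of_nonneg_left _ hr0.le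
      linarith
    linarith
  have h6 : (r + 1) * (δ * ε / 8) ≤ r * (δ * ε / 4) - 1 / δ := by
    have e1 : (8 / (δ ^ 2 * ε) + 1) * (δ * ε / 8) ≤ r * (δ * ε / 8) :=
      mul_le_mul_of_nonneg_right hr (by positivity)
    have e2 : (8 / (δ ^ 2 * ε) + 1) * (δ * ε / 8) = 1 / δ + δ * ε / 8 := by
      field_simp
    linarith
  have h7 : (r + 1) * (δ * ε / 8) ≤ (r + 1) * volume.real G := by linarith
  exact le_of_mul_le_mul_left h7 (by linarith)

end Q260.RL
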