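import Pool.Agent.Q260.RL.Main
import Pool.Agent.W25.TF.Fin

set_option autoImplicit false

namespace Q260.RL

/-- five integers -/
theorem mai5 : Mai 5 (3 / 5) := by
  intro U ε hε h
  obtain ⟨Q, A, -, -, hQ⟩ := Pool.Agent.W142.TF.s_maiF U ε hε h 1
  exact ⟨fun j => (Q j : ℤ) * A j 0, fun i j hij hj => hQ i j hij hj 0 0 one_pos one_pos⟩

/-- four integers -/
theorem mai4 : Mai 4 (1 / 2) := by
  intro U ε hε h
  obtain ⟨Q, A, -, -, hQ⟩ := Pool.Agent.W25.TF.s_maiF4 U ε hε h 1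
  exact ⟨fun j => (Q j : ℤ) * A j 0, fun i j hij hj => hQ i j hij hj 0 0 one_pos one_pos⟩

end Q260.RL
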