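import Pool.Agent.Q260.RL.Inst
import Pool.Agent.H361R2.PP.Cor7

set_option autoImplicit false

open MeasureTheory Set Filter Topology

namespace Q260.RL

open Pool.Agent.H361R2.PP (gp LP' LP_sub fiv)

theorem five' (β : Fin 5 → ℝ) (hβ : StrictMono β) : ∃ i j : Fin 5, i < j ∧ β j - β i ∈ LP' := by
  obtain ⟨i, j, hij, h⟩ := Pool.Agent.H380R2.PPLeb.five fiv β hβ
  exact ⟨i, j, hij, LP_sub h⟩

theorem closed_LP' : IsClosed LP' := by
  rw [← isSeqClosed_iff_isClosed]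
  intro x y hx hxy
  refine ⟨ge_of_tendsto' hxy fun n => (hx n).1, fun ε hε => ?_⟩
  obtain ⟨k, hk⟩ := ((Metric.tendsto_atTop.1 hxy) (ε / 2) (by positivity))
  have hk := hk k le_rfl
  rw [Real.dist_eq] at hk
  obtain ⟨c, hc, h⟩ := (hx k).2 (ε / 2) (by positivity)
  refine ⟨c, hc, fun N₀ => ?_⟩
  obtain ⟨N, hN, h1⟩ := h N₀
  refine ⟨N, hN, h1.trans ?_⟩
  rw [Nat.cast_le]
  refine Set.ncard_le_ncard ?_ ((Finset.finite_toSet (Finset.Icc 2 N)).subset fun n hn => hn.1)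
  rintro n ⟨hn1, hn2⟩
  refine ⟨hn1, ?_⟩
  have e : gp n - y = (gp n - x k) + (x k - y) := by ring
  rw [e]
  exact (abs_add_le _ _).trans_lt (by linarith)

theorem freq_LP' {x : ℝ} (hx : x ∈ LP') (ε : ℝ) (hε : 0 < ε) : ∃ᶠ n in atTop, |gp n - x| < ε := by
  obtain ⟨c, hc, h⟩ := hx.2 ε hε
  rw [frequently_atTop]
  intro M
  by_contra hcon
  push Not at hcon
  obtain ⟨N₀, hN₀⟩ := exists_nat_gt ((M : ℝ) / c)
  obtain ⟨N, hN, h1⟩ := h N₀
  have h2 : {n : ℕ | n ∈ Finset.Icc 2 N ∧ |gp n - x| < ε} ⊆ (Finset.range M : Set ℕ) := by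
    rintro n ⟨_, hn⟩
    rw [Finset.coe_range, mem_Iio]
    by_contra hlt
    exact absurd hn (not_lt.2 (hcon n (not_lt.1 hlt)))
  have h3 := Set.ncard_le_ncard h2 (Finset.finite_toSet _)
  rw [Set.ncard_coe_finset, Finset.card_range] at h3
  have h4 : c * N ≤ M := h1.trans (by exact_mod_cast h3)
  rw [div_lt_iff₀ hc] at hN₀
  have h5 : (N₀ : ℝ) ≤ N := by exact_mod_cast hN
  nlinarith

theorem cluster_LP' {x : ℝ} (hx : x ∈ LP') : MapClusterPt x atTop gp := by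
  rw [mapClusterPt_iff_frequently]
  intro s hs
  obtain ⟨ε, hε, hεs⟩ := Metric.mem_nhds_iff.1 hs
  refine (freq_LP' hx ε hε).mono fun n hn => hεs ?_
  rw [Metric.mem_ball, Real.dist_eq]
  exact hn

/-- lower Banach density at least `2/5`, positive upper density -/
theorem dens_LP' (ε : ℝ) (hε : 0 < ε) : ∃ T₀ : ℝ, ∀ T : ℝ, T₀ ≤ T → ∀ u : ℝ, 0 ≤ u →
    ENNReal.ofReal ((2 / 5 - ε) * T) ≤ volume (LP' ∩ Icc u (u + T)) := by
  obtain ⟨T₀, h⟩ := real_dens 5 (3 / 5) (by norm_num) mai5 LP' closed_LP'.measurableSet five' ε hε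
  refine ⟨T₀, fun T hT u hu => le_trans (le_of_eq ?_) (h T hT u hu)⟩
  norm_num

end Q260.RL
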