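import Pool.Agent.Q260.RL.Good

set_option autoImplicit false

open MeasureTheory Set Filter Topology

namespace Q260.RL

/-- configurations of `n` integers in sets of which arbitrarily divisible dilates have upper Banach density
above `ρ` -/
def Mai (n : ℕ) (ρ : ℝ) : Prop := ∀ (U : Set ℤ) (ε : ℝ), 0 < ε →
  (∀ M : ℕ, 1 ≤ M → ∃ Q : ℕ, 1 ≤ Q ∧ M ∣ Q ∧ ∀ L₀ : ℕ, ∃ L : ℕ, L₀ ≤ L ∧ ∃ u : ℤ,
    (ρ + ε) * L ≤ ({n : ℕ | n < L ∧ (Q : ℤ) * (u + (n : ℤ)) ∈ U}.ncard : ℝ)) →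
  ∃ x : ℕ → ℤ, ∀ i j, i < j → j < n → x j - x i ∈ U

theorem limsup_ge {G : ℕ → Set ℝ} (hG : ∀ k, MeasurableSet (G k)) {a b c : ℝ} (hsub : ∀ k, G k ⊆ Icc a b)
    (k0 : ℕ) (hc : ∀ k, k0 ≤ k → c ≤ volume.real (G k)) :
    c ≤ volume.real (⋂ n : ℕ, ⋃ k : ℕ, ⋃ (_ : n ≤ k), G k) := by
  have hI : volume (Icc a b) ≠ ⊤ := by rw [Real.volume_Icc]; exact ENNReal.ofReal_ne_top
  set s : ℕ → Set ℝ := fun n => ⋃ k : ℕ, ⋃ (_ : n ≤ k), G k with hs
  have hsm : ∀ n, MeasurableSet (s n) := fun n =>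
    MeasurableSet.iUnion fun k => MeasurableSet.iUnion fun _ => hG k
  have hsI : ∀ n, s n ⊆ Icc a b := fun n => by
    simp only [hs]
    exact iUnion_subset fun k => iUnion_subset fun _ => hsub k
  have hanti : Antitone s := by
    intro n m hnm x hx
    simp only [hs, mem_iUnion] at hx ⊢
    obtain ⟨k, hk, hx⟩ := hx
    exact ⟨k, hnm.trans hk, hx⟩
  have hlim := tendsto_measure_iInter_atTop (μ := volume) (fun n => (hsm n).nullMeasurableSet) hanti
    ⟨0, ne_top_of_le_ne_top hI (measure_mono (hsI 0))⟩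
  have hfin : volume (⋂ n, s n) ≠ ⊤ :=
    ne_top_of_le_ne_top hI (measure_mono ((iInter_subset s 0).trans (hsI 0)))
  have hge : ENNReal.ofReal c ≤ volume (⋂ n, s n) := by
    refine ge_of_tendsto' hlim fun n => ?_
    have h1 : volume (G (max n k0)) ≤ volume (s n) := by
      refine measure_mono fun x hx => ?_
      simp only [hs, mem_iUnion]
      exact ⟨max n k0, le_max_left _ _, hx⟩
    refine le_trans ?_ h1
    have h2 := hc (max n k0) (le_max_right _ _)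
    rw [measureReal_def] at h2
    exact (ENNReal.ofReal_le_iff_le_toReal (ne_top_of_le_ne_top hI (measure_mono (hsub _)))).2 h2
  rw [measureReal_def]
  exact (ENNReal.ofReal_le_iff_le_toReal hfin).1 hge

/-- if among the differences of any `n` reals one is in `S` then `S` has lower Banach density at least
`1 - ρ` -/
theorem real_dens (n : ℕ) (ρ : ℝ) (hρ : 0 ≤ ρ) (hM : Mai n ρ) (S : Set ℝ) (hS : MeasurableSet S)
    (h : ∀ β : Fin n → ℝ, StrictMono β → ∃ i j, i < j ∧ β j - β i ∈ S) (ε : ℝ) (hε : 0 < ε) :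
    ∃ T₀ : ℝ, ∀ T : ℝ, T₀ ≤ T → ∀ u : ℝ, 0 ≤ u →
      ENNReal.ofReal ((1 - ρ - ε) * T) ≤ volume (S ∩ Icc u (u + T)) := by
  classical
  by_contra hcon
  push Not at hcon
  have hcon' : ∀ k : ℕ, ∃ T u : ℝ, (k : ℝ) + 1 ≤ T ∧ 0 ≤ u ∧
      volume (S ∩ Icc u (u + T)) < ENNReal.ofReal ((1 - ρ - ε) * T) := fun k => by
    obtain ⟨T, hT, u, hu, hv⟩ := hcon ((k : ℝ) + 1)
    exact ⟨T, u, hT, hu, hv⟩
  choose T u hT hu hv using hcon'
  have hT0 : ∀ k, 0 < T k := fun k => by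
    have := hT k
    have : (0 : ℝ) ≤ k := Nat.cast_nonneg k
    linarith
  have hρε : ρ + ε ≤ 1 := by
    have h1 := (ENNReal.ofReal_pos.1 (lt_of_le_of_lt zero_le (hv 0)))
    have h2 : 0 < 1 - ρ - ε := by
      by_contra h3
      push Not at h3
      nlinarith [hT0 0]
    linarith
  set A : ℕ → Set ℝ := fun k => Ioc (u k) (u k + T k) \ S with hA
  have hAm : ∀ k, MeasurableSet (A k) := fun k => measurableSet_Ioc.diff hS
  have hAI : ∀ k, A k ⊆ Ioc (u k) (u k + T k) := fun k => sdiff_subset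
  have hvA : ∀ k, (ρ + ε) * T k ≤ volume.real (A k) := by
    intro k
    have h1 : Ioc (u k) (u k + T k) ⊆ A k ∪ (S ∩ Icc (u k) (u k + T k)) := by
      intro x hx
      by_cases hxS : x ∈ S
      · exact Or.inr ⟨hxS, hx.1.le, hx.2⟩
      · exact Or.inl ⟨hx, hxS⟩
    have hfinA : volume (A k) ≠ ⊤ := by
      refine ne_top_of_le_ne_top ?_ (measure_mono (hAI k))
      rw [Real.volume_Ioc]; exact ENNReal.ofReal_ne_top
    have hfinS : volume (S ∩ Icc (u k) (u k + T k)) ≠ ⊤ := (hv k).ne_top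
    have h2 : volume.real (Ioc (u k) (u k + T k)) ≤ volume.real (A k) +
        volume.real (S ∩ Icc (u k) (u k + T k)) :=
      le_trans (measureReal_mono h1
        (measure_union_lt_top (lt_top_iff_ne_top.2 hfinA) (lt_top_iff_ne_top.2 hfinS)).ne)
        (measureReal_union_le _ _)
    rw [Real.volume_real_Ioc, max_eq_left (by linarith [hT0 k])] at h2
    have h3 : volume.real (S ∩ Icc (u k) (u k + T k)) ≤ (1 - ρ - ε) * T k := by
      rw [measureReal_def]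
      refine ENNReal.toReal_le_of_le_ofReal ?_ (hv k).le
      exact mul_nonneg (by linarith) (hT0 k).le
    linarith
  obtain ⟨δ, hδ⟩ : ∃ δ : ℝ, δ = ε / 8 := ⟨_, rfl⟩
  have hδ0 : 0 < δ := by rw [hδ]; positivity
  set a : ℕ → ℝ := fun j => (j.factorial : ℝ) with ha
  have ha0 : ∀ j, 0 < a j := fun j => by simp only [ha]; exact_mod_cast j.factorial_pos
  set B : ℕ → ℕ → ℕ := fun j k => ⌈(u k + T k) / a j⌉₊ with hB
  set G : ℕ → ℕ → Set ℝ := fun j k => Gd (A k) (a j) (B j k) δ ((ρ + ε / 2) * (T k / a j)) with hG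
  have hGm : ∀ j k, MeasurableSet (G j k) := fun j k => Gd_meas (hAm k) _ _ _ _
  have hGI : ∀ j k, G j k ⊆ Icc 1 (1 + δ) := fun j k t ht => ht.1
  have hbig : ∀ (j : ℕ) (R : ℝ), ∃ k0 : ℕ, ∀ k, k0 ≤ k → R ≤ T k / a j := by
    intro j R
    obtain ⟨k0, hk0⟩ := exists_nat_ge (R * a j)
    refine ⟨k0, fun k hk => ?_⟩
    rw [le_div_iff₀ (ha0 j)]
    have h1 : (k0 : ℝ) ≤ k := by exact_mod_cast hk
    linarith [hT k]
  set H : ℕ → Set ℝ := fun j => ⋂ n : ℕ, ⋃ k : ℕ, ⋃ (_ : n ≤ k), G j k with hH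
  have hHm : ∀ j, MeasurableSet (H j) := fun j => MeasurableSet.iInter fun n =>
    MeasurableSet.iUnion fun k => MeasurableSet.iUnion fun _ => hGm j k
  have hHI : ∀ j, H j ⊆ Icc 1 (1 + δ) := by
    intro j t ht
    simp only [hH, mem_iInter, mem_iUnion] at ht
    obtain ⟨k, _, hk⟩ := ht 0
    exact hGI j k hk
  have hHge : ∀ j, δ * ε / 8 ≤ volume.real (H j) := by
    intro j
    obtain ⟨k0, hk0⟩ := hbig j (8 / (δ ^ 2 * ε) + 1)
    refine limsup_ge (hGm j) (hGI j) k0 fun k hk => ?_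
    exact Gd_ge (hAm k) (u k) (T k) (a j) ρ ε δ (hAI k) (hu k) (hT0 k) (ha0 j) hρ hε hρε hδ (hvA k) (B j k)
      (Nat.le_ceil _) (hk0 k hk)
  have hfinal := limsup_ge hHm hHI 0 fun j _ => hHge j
  have hne : (⋂ m : ℕ, ⋃ j : ℕ, ⋃ (_ : m ≤ j), H j).Nonempty := by
    by_contra hemp
    rw [not_nonempty_iff_eq_empty] at hemp
    rw [hemp, measureReal_empty] at hfinal
    have : 0 < δ * ε / 8 := by positivity
    linarith
  obtain ⟨t, ht⟩ := hne
  have htj : ∀ m : ℕ, ∃ j, m ≤ j ∧ t ∈ H j := by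
    intro m
    simp only [mem_iInter, mem_iUnion] at ht
    obtain ⟨j, hj, h1⟩ := ht m
    exact ⟨j, hj, h1⟩
  have ht1 : 1 ≤ t := by
    obtain ⟨j, _, hj⟩ := htj 0
    exact (hHI j hj).1
  have htk : ∀ j, t ∈ H j → ∀ k0 : ℕ, ∃ k, k0 ≤ k ∧ t ∈ G j k := by
    intro j hj k0
    simp only [hH, mem_iInter, mem_iUnion] at hj
    obtain ⟨k, hk, h1⟩ := hj k0
    exact ⟨k, hk, h1⟩
  obtain ⟨x, hx⟩ := hM {z : ℤ | z ≠ 0 ∧ |(z : ℝ)| * t ∉ S} (ε / 4) (by positivity) (by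
    intro M hM1
    obtain ⟨j, hj, htH⟩ := htj M
    refine ⟨j.factorial, j.factorial_pos, Nat.dvd_factorial (by omega) hj, fun L₀ => ?_⟩
    obtain ⟨k0, hk0⟩ := hbig j (4 / ε + 2 * L₀ / ε)
    obtain ⟨k, hk, htG⟩ := htk j htH k0
    obtain ⟨r, hr⟩ : ∃ r, r = T k / a j := ⟨_, rfl⟩
    have hr1 : 4 / ε + 2 * L₀ / ε ≤ r := by rw [hr]; exact hk0 k hk
    have hL0 : (0 : ℝ) ≤ 2 * L₀ / ε := by positivity
    have hr2 : 4 / ε ≤ r := by linarith
    have hr3 : 2 * L₀ / ε ≤ r := by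
      have : 0 < 4 / ε := by positivity
      linarith
    have hr0 : 0 < r := lt_of_lt_of_le (by positivity) hr2
    rw [div_le_iff₀ hε] at hr2 hr3
    obtain ⟨L, v, hL, hN⟩ := window (u k) (T k) (a j) t (hAI k) (hu k) (hT0 k).le (ha0 j) ht1 (B j k)
    rw [← hr] at hL
    have hNge : (ρ + ε / 2) * r ≤ Nf (A k) (a j) (B j k) t := by
      rw [hr]; exact htG.2
    have hcardL : ({m : ℕ | m < L ∧ ((v + m : ℕ) : ℝ) * a j * t ∈ A k}.ncard : ℝ) ≤ L := by
      rw [Nat.cast_le]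
      have h1 : {m : ℕ | m < L ∧ ((v + m : ℕ) : ℝ) * a j * t ∈ A k} ⊆ (Finset.range L : Set ℕ) := fun m hm => by
        rw [Finset.coe_range]; exact hm.1
      have h2 := Set.ncard_le_ncard h1 (Finset.finite_toSet _)
      rwa [Set.ncard_coe_finset, Finset.card_range] at h2
    have hρr : 0 ≤ ρ * r := mul_nonneg hρ hr0.le
    refine ⟨L, ?_, v, ?_⟩
    · have h1 : (L₀ : ℝ) ≤ L := by
        have h2 : (ρ + ε / 2) * r = ρ * r + r * ε / 2 := by ring
        linarith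
      exact_mod_cast h1
    · have h1 : (ρ + ε / 4) * L ≤ (ρ + ε / 4) * (r + 1) := mul_le_mul_of_nonneg_left hL (by positivity)
      have h2 : (ρ + ε / 4) * (r + 1) ≤ (ρ + ε / 2) * r := by
        have : (ρ + ε / 2) * r - (ρ + ε / 4) * (r + 1) = r * ε / 4 - (ρ + ε / 4) := by ring
        linarith
      refine h1.trans (h2.trans (hNge.trans (hN.trans ?_)))
      rw [Nat.cast_le]
      refine Set.ncard_le_ncard ?_ ((Set.finite_lt_nat L).subset fun m hm => hm.1)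
      rintro m ⟨hm1, hm2⟩
      have hpos : 0 < ((v + m : ℕ) : ℝ) * a j * t := lt_of_le_of_lt (hu k) (hAI k hm2).1
      have e1 : (((j.factorial : ℤ) * ((v : ℤ) + (m : ℤ)) : ℤ) : ℝ) = ((v + m : ℕ) : ℝ) * a j := by
        simp only [ha]; push_cast; ring
      refine ⟨hm1, ?_, ?_⟩
      · intro h0
        rw [h0] at e1
        rw [← e1] at hpos
        simp at hpos
      · rw [e1, abs_of_nonneg (by positivity)]
        exact hm2.2)
  -- sorting
  set X : Fin n → ℝ := fun i => (x i : ℝ) * t with hX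
  have ht0 : 0 < t := by linarith
  have hXinj : Function.Injective X := by
    intro i j hij
    by_contra hne
    have hij' : (x i : ℝ) = x j := mul_right_cancel₀ ht0.ne' hij
    have hij'' : x i = x j := by exact_mod_cast hij'
    rcases lt_or_gt_of_ne hne with h1 | h1
    · exact (hx i j h1 j.2).1 (by omega)
    · exact (hx j i h1 i.2).1 (by omega)
  set s : Finset ℝ := Finset.univ.image X with hs
  have hcard : s.card = n := by
    rw [hs, Finset.card_image_of_injective _ hXinj, Finset.card_univ, Fintype.card_fin]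
  obtain ⟨i, j, hij, hmem⟩ := h (s.orderEmbOfFin hcard) (s.orderEmbOfFin hcard).strictMono
  have hlt : (s.orderEmbOfFin hcard) i < (s.orderEmbOfFin hcard) j := (s.orderEmbOfFin hcard).strictMono hij
  obtain ⟨i', _, hi'⟩ := Finset.mem_image.1 (s.orderEmbOfFin_mem hcard i)
  obtain ⟨j', _, hj'⟩ := Finset.mem_image.1 (s.orderEmbOfFin_mem hcard j)
  rw [← hi', ← hj'] at hmem hlt
  have hne : i' ≠ j' := by
    rintro rfl
    exact lt_irrefl _ hlt
  have hkey : X j' - X i' = |((x j' - x i' : ℤ) : ℝ)| * t := by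
    have h1 : X j' - X i' = ((x j' - x i' : ℤ) : ℝ) * t := by simp only [hX]; push_cast; ring
    have h2 : 0 < ((x j' - x i' : ℤ) : ℝ) := by
      have h3 : 0 < ((x j' - x i' : ℤ) : ℝ) * t := by rw [← h1]; linarith
      exact (pos_iff_pos_of_mul_pos h3).2 ht0
    rw [h1, abs_of_pos h2]
  rcases lt_or_gt_of_ne hne with h1 | h1
  · have h2 := hx i' j' h1 j'.2
    exact h2.2 (by rw [← hkey]; exact hmem)
  · have h2 := hx j' i' h1 i'.2
    apply h2.2
    have h3 : |((x j' - x i' : ℤ) : ℝ)| = |((x i' - x j' : ℤ) : ℝ)| := by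
      rw [← abs_neg]; congr 1; push_cast; ring
    rw [← h3, ← hkey]
    exact hmem

end Q260.RL
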